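import Pool.Agent.K1H53.BI.Plan

set_option autoImplicit false

/-! Project BI, piece GZ: the function `ZZ` has drift one. -/

open scoped ENNReal
open Finset

namespace Pool.Agent.K1H10.BI

open Pool.Agent.K1H53.BI

theorem nsq_int (x : V) : (nsq x : ℤ) = x 0 ^ 2 + x 1 ^ 2 + x 2 ^ 2 := by
  unfold nsq
  rw [Fin.sum_univ_three]
  push_cast
  simp [sq_abs]

theorem nsq_zero : nsq (0 : V) = 0 := by
  unfold nsq
  exact Finset.sum_eq_zero fun i _ => by
    change (0 : ℤ).natAbs ^ 2 = 0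
    norm_num

theorem sum_dir (x : V) : ∑ e : Fin 3 × Bool, nsq (x + dir e) = 6 * (nsq x + 1) := by
  have h : ((∑ e : Fin 3 × Bool, nsq (x + dir e) : ℕ) : ℤ) = ((6 * (nsq x + 1) : ℕ) : ℤ) := by
    push_cast
    rw [Fintype.sum_prod_type, Fin.sum_univ_three]
    simp only [Fintype.sum_bool, nsq_int, Pi.add_apply, dir]
    simp
    ring
  exact_mod_cast h

theorem Ex_unif (g : Fin 3 × Bool → ℝ≥0∞) :
    Ex (PMF.uniformOfFintype (Fin 3 × Bool)) g = (∑ e, g e) / 6 := by
  unfold Ex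
  rw [tsum_fintype]
  simp only [PMF.uniformOfFintype_apply]
  rw [← Finset.mul_sum, mul_comm, div_eq_mul_inv]
  congr 2

theorem Ex_nsq (x : V) :
    Ex (PMF.uniformOfFintype (Fin 3 × Bool)) (fun e => (nsq (x + dir e) : ℝ≥0∞)) =
      (nsq x : ℝ≥0∞) + 1 := by
  rw [Ex_unif, ← Nat.cast_sum, sum_dir]
  push_cast
  rw [mul_comm]
  exact ENNReal.mul_div_cancel_right (by norm_num) (by norm_num)

theorem ZZ_put (s : St) (y : V) : ZZ (put s y) = ZZ s + nsq y := by
  unfold put ZZ
  by_cases h : y ∈ s.A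
  · rw [if_pos h]
    simp only [List.map_cons, List.sum_cons]
    ring
  · rw [if_neg h]
    simp only [Finset.sum_insert h]
    ring

theorem children_ZZ (x : V) (k : ℕ) : ∀ s : St,
    Ex (children x k s) (fun s' => (ZZ s' : ℝ≥0∞)) = ZZ s + k * ((nsq x : ℝ≥0∞) + 1) := by
  induction k with
  | zero =>
    intro s
    rw [children, Ex_pure]
    simp
  | succ k ih =>
    intro s
    rw [children, Ex_bind]
    have h : (fun e => Ex (children x k (put s (x + dir e))) fun s' => (ZZ s' : ℝ≥0∞)) =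
        fun e => (nsq (x + dir e) : ℝ≥0∞) + ((ZZ s : ℝ≥0∞) + k * ((nsq x : ℝ≥0∞) + 1)) := by
      funext e
      rw [ih, ZZ_put]
      push_cast
      ring
    rw [h, Ex_add, Ex_nsq, Ex_const]
    push_cast
    ring

theorem erase_sum (L : List V) (i : ℕ) (h : i < L.length) :
    ((L.eraseIdx i).map nsq).sum + nsq (L.getD i 0) = (L.map nsq).sum := by
  have h1 := ((List.getElem_cons_eraseIdx_perm h).map nsq).sum_eq
  rw [List.map_cons, List.sum_cons] at h1
  rw [List.getD_eq_getElem _ _ h]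
  omega

theorem Ex_mean {ν : PMF ℕ} {σ2 M : ℝ} (hν : Off ν σ2 M) :
    Ex ν (fun k => (k : ℝ≥0∞)) = 1 := by
  have h0 : HasSum (fun k : ℕ => (ν k).toReal) 1 := by
    have h1 : HasSum (fun k : ℕ => (ν k).toReal) (∑' k, (ν k).toReal) :=
      ENNReal.hasSum_toReal (by rw [ν.tsum_coe]; exact ENNReal.one_ne_top)
    have h2 : ∑' k, (ν k).toReal = 1 := by
      rw [← ENNReal.tsum_toReal_eq (fun k => ν.apply_ne_top k), ν.tsum_coe, ENNReal.toReal_one]
    rw [h2] at h1
    exact h1
  have h1 : HasSum (fun k : ℕ => (ν k).toReal * (k : ℝ)) 1 := by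
    have h2 := hν.m1.add h0
    have h3 : (fun k : ℕ => (ν k).toReal * ((k : ℝ) - 1) + (ν k).toReal) =
        fun k : ℕ => (ν k).toReal * (k : ℝ) := by
      funext k
      ring
    rw [h3, zero_add] at h2
    exact h2
  unfold Ex
  have h4 := ENNReal.ofReal_tsum_of_nonneg (f := fun k : ℕ => (ν k).toReal * (k : ℝ))
    (fun k => by positivity) h1.summable
  rw [h1.tsum_eq, ENNReal.ofReal_one] at h4
  rw [h4]
  refine tsum_congr fun k => ?_
  rw [ENNReal.ofReal_mul ENNReal.toReal_nonneg, ENNReal.ofReal_toReal (ν.apply_ne_top k),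
    ENNReal.ofReal_natCast]

theorem t_GZ : S_GZ := by
  intro ν σ2 M R s hν _
  by_cases hP : Proc R s
  · obtain ⟨hL, hI⟩ := hP
    have hind : ind (Proc R) s = 1 := by
      unfold ind
      rw [if_pos ⟨hL, hI⟩]
    have hs : stepD ν R s = (PMF.uniformOfFinset (range s.L.length)
        ⟨0, Finset.mem_range.2 (List.length_pos_iff.2 hL)⟩).bind fun i =>
        ν.bind fun k => children (s.L.getD i 0) k ⟨s.A, s.L.eraseIdx i, s.m⟩ := by
      unfold stepD
      rw [if_pos hI]
      unfold step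
      rw [dif_neg hL]
    rw [hs, Ex_bind, hind]
    have key : ∀ i, i ∈ range s.L.length →
        Ex (ν.bind fun k => children (s.L.getD i 0) k ⟨s.A, s.L.eraseIdx i, s.m⟩)
          (fun s' => (ZZ s' : ℝ≥0∞)) = (ZZ s : ℝ≥0∞) + 1 := by
      intro i hi
      rw [Ex_bind]
      have h1 : (fun k => Ex (children (s.L.getD i 0) k ⟨s.A, s.L.eraseIdx i, s.m⟩)
          fun s' => (ZZ s' : ℝ≥0∞)) = fun k : ℕ =>
          (ZZ ⟨s.A, s.L.eraseIdx i, s.m⟩ : ℝ≥0∞) +
            (((nsq (s.L.getD i 0) : ℝ≥0∞) + 1) * (k : ℝ≥0∞)) := by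
        funext k
        rw [children_ZZ, mul_comm (k : ℝ≥0∞)]
      rw [h1, Ex_add, Ex_const, Ex_const_mul, Ex_mean hν, mul_one, ← add_assoc]
      congr 1
      have h2 := erase_sum s.L i (Finset.mem_range.1 hi)
      have h3 : ZZ ⟨s.A, s.L.eraseIdx i, s.m⟩ + nsq (s.L.getD i 0) = ZZ s := by
        unfold ZZ
        simp only
        omega
      exact_mod_cast h3
    rw [Ex_congr _ (h := fun _ => (ZZ s : ℝ≥0∞) + 1), Ex_const]
    intro i hi
    refine key i ?_
    by_contra hni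
    exact hi (PMF.uniformOfFinset_apply_of_notMem _ hni)
  · have hind : ind (Proc R) s = 0 := by
      unfold ind
      rw [if_neg hP]
    rw [hind, add_zero]
    unfold stepD
    by_cases hI : In R s
    · rw [if_pos hI]
      have hL : s.L = [] := by
        by_contra h
        exact hP ⟨h, hI⟩
      unfold step
      rw [dif_pos hL, Ex_pure]
      by_cases hm : s.m = 0
      · rw [if_pos hm]
      · rw [if_neg hm]
        unfold ZZ
        simp [hL, nsq_zero]
    · rw [if_neg hI, Ex_pure]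

end Pool.Agent.K1H10.BI
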